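import Pool.Agent.helper64.PC.SpecX

/-!
# pc:GP2
-/

set_option autoImplicit false

namespace Pool.Agent.PC

open Finset Pool.Agent.PB

theorem GP2_geom (t : ℕ) : ∑ b ∈ Icc 1 t, (1 / 4 : ℚ) ^ b = (1 - (1 / 4) ^ t) / 3 := by
  induction t with
  | zero => simp
  | succ t ih =>
    rw [Finset.sum_Icc_succ_top (by omega), ih]
    ring

theorem GP2_pow (m b : ℕ) (hm : 1 ≤ m) (hb : 1 ≤ b) : (m : ℚ) * (1 / (4 * m)) ^ b ≤ (1 / 4) ^ b := by
  have hm' : (1 : ℚ) ≤ m := by exact_mod_cast hm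
  have hm0 : (0 : ℚ) < m := by linarith
  have h1 : (1 / (4 * m) : ℚ) ^ b = (1 / 4) ^ b * (1 / m) ^ b := by
    rw [← mul_pow]
    congr 1
    field_simp
  have h2 : (1 / m : ℚ) ^ b ≤ 1 / m := by
    have h3 : (1 / m : ℚ) ≤ 1 := by
      rw [div_le_one hm0]; exact hm'
    have h4 : (0 : ℚ) ≤ 1 / m := by positivity
    calc (1 / m : ℚ) ^ b ≤ (1 / m) ^ 1 := pow_le_pow_of_le_one h4 h3 hb
      _ = 1 / m := pow_one _
  have h5 : (0 : ℚ) ≤ (1 / 4) ^ b := by positivity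
  calc (m : ℚ) * (1 / (4 * m)) ^ b = (m * (1 / m) ^ b) * (1 / 4) ^ b := by rw [h1]; ring
    _ ≤ (m * (1 / m)) * (1 / 4) ^ b := by
      apply mul_le_mul_of_nonneg_right _ h5
      exact mul_le_mul_of_nonneg_left h2 hm0.le
    _ = (1 / 4) ^ b := by
      rw [mul_one_div_cancel hm0.ne', one_mul]

theorem GP2 (hMNC : MNC_stmt) : GP2_stmt := by
  classical
  intro P A Om _ _ _ _ S E U hU hex hmax d hd C hC
  by_contra hcon
  push Not at hcon
  have hNpos : 0 < (E.filter fun a => U ⊆ S.g a).card := by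
    obtain ⟨a, ha, hUa⟩ := hex
    exact card_pos.2 ⟨a, mem_filter.2 ⟨ha, hUa⟩⟩
  have hsub : (E.filter fun a => U ⊆ S.g a) ⊆ (univ : Finset (Fin d)).biUnion fun i =>
      (Icc 1 S.t).biUnion fun b => (MnF (C i) U b).biUnion fun Y => E.filter fun a => U ∪ Y ⊆ S.g a := by
    intro a ha
    rw [mem_filter] at ha
    obtain ⟨i, b, hb1, hbt, Y, hY, hYa⟩ := hcon a ha.1 ha.2
    rw [mem_biUnion]
    refine ⟨i, mem_univ _, ?_⟩
    rw [mem_biUnion]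
    refine ⟨b, mem_Icc.2 ⟨hb1, hbt⟩, ?_⟩
    rw [mem_biUnion]
    exact ⟨Y, hY, mem_filter.2 ⟨ha.1, union_subset ha.2 hYa⟩⟩
  have hcard : (E.filter fun a => U ⊆ S.g a).card ≤ ∑ i : Fin d, ∑ b ∈ Icc 1 S.t, ∑ Y ∈ MnF (C i) U b,
      (E.filter fun a => U ∪ Y ⊆ S.g a).card := by
    refine (card_le_card hsub).trans (card_biUnion_le.trans ?_)
    refine sum_le_sum fun i _ => card_biUnion_le.trans ?_
    exact sum_le_sum fun b _ => card_biUnion_le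
  have hcardQ : ((E.filter fun a => U ⊆ S.g a).card : ℚ) ≤ ∑ i : Fin d, ∑ b ∈ Icc 1 S.t, ∑ Y ∈ MnF (C i) U b,
      ((E.filter fun a => U ∪ Y ⊆ S.g a).card : ℚ) := by
    exact_mod_cast hcard
  generalize hN : (E.filter fun a => U ⊆ S.g a).card = N at *
  have hm1 := S.m1
  have hk2 := S.k2
  have hmq : (1 : ℚ) ≤ S.m := by exact_mod_cast hm1
  have hkq : (2 : ℚ) ≤ S.k := by exact_mod_cast hk2
  have hNq : (0 : ℚ) < N := by exact_mod_cast hNpos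
  have hRpos : (0 : ℚ) < 4 * S.m * S.k := by positivity
  -- one set
  have hone : ∀ (i : Fin d) (b : ℕ), b ∈ Icc 1 S.t → ∀ Y ∈ MnF (C i) U b,
      ((E.filter fun a => U ∪ Y ⊆ S.g a).card : ℚ) ≤ N / (4 * S.m * S.k) ^ b := by
    intro i b hb Y hY
    rw [mem_Icc] at hb
    unfold MnF at hY
    rw [mem_filter] at hY
    obtain ⟨-, hYc, hdis, -, -⟩ := hY
    have h1 := hmax Y hdis (by omega)
    rw [hYc] at h1
    rw [le_div_iff₀ (by positivity)]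
    exact_mod_cast h1
  have hb1 : ∀ (i : Fin d) (b : ℕ), b ∈ Icc 1 S.t →
      ∑ Y ∈ MnF (C i) U b, ((E.filter fun a => U ∪ Y ⊆ S.g a).card : ℚ) ≤ N * (1 / (4 * S.m)) ^ b := by
    intro i b hb
    have hb' := mem_Icc.1 hb
    have hcY : ((MnF (C i) U b).card : ℚ) ≤ (S.k : ℚ) ^ b := by
      exact_mod_cast hMNC P S.PF S.k S.t (C i) (hC i) b U (by omega)
    calc ∑ Y ∈ MnF (C i) U b, ((E.filter fun a => U ∪ Y ⊆ S.g a).card : ℚ)
        ≤ ∑ _Y ∈ MnF (C i) U b, (N : ℚ) / (4 * S.m * S.k) ^ b := sum_le_sum fun Y hY => hone i b hb Y hY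
      _ = ((MnF (C i) U b).card : ℚ) * (N / (4 * S.m * S.k) ^ b) := by
          rw [sum_const, nsmul_eq_mul]
      _ ≤ (S.k : ℚ) ^ b * (N / (4 * S.m * S.k) ^ b) :=
          mul_le_mul_of_nonneg_right hcY (by positivity)
      _ = N * (1 / (4 * S.m)) ^ b := by
          rw [mul_pow (4 * (S.m : ℚ)) (S.k : ℚ) b, div_pow, one_pow]
          have : (S.k : ℚ) ^ b ≠ 0 := by positivity
          have h4 : (4 * (S.m : ℚ)) ^ b ≠ 0 := by positivity
          field_simp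
  have hfin : (N : ℚ) ≤ N * ((1 - (1 / 4) ^ S.t) / 3) := by
    calc (N : ℚ) ≤ ∑ i : Fin d, ∑ b ∈ Icc 1 S.t, ∑ Y ∈ MnF (C i) U b,
        ((E.filter fun a => U ∪ Y ⊆ S.g a).card : ℚ) := hcardQ
      _ ≤ ∑ _i : Fin d, ∑ b ∈ Icc 1 S.t, N * (1 / (4 * S.m : ℚ)) ^ b :=
          sum_le_sum fun i _ => sum_le_sum fun b hb => hb1 i b hb
      _ = (d : ℚ) * ∑ b ∈ Icc 1 S.t, N * (1 / (4 * S.m : ℚ)) ^ b := by
          rw [sum_const, nsmul_eq_mul, card_univ, Fintype.card_fin]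
      _ ≤ (S.m : ℚ) * ∑ b ∈ Icc 1 S.t, N * (1 / (4 * S.m : ℚ)) ^ b := by
          apply mul_le_mul_of_nonneg_right
          · exact_mod_cast hd
          · exact sum_nonneg fun b _ => by positivity
      _ = N * ∑ b ∈ Icc 1 S.t, (S.m : ℚ) * (1 / (4 * S.m : ℚ)) ^ b := by
          rw [mul_sum, mul_sum]
          exact sum_congr rfl fun b _ => by ring
      _ ≤ N * ∑ b ∈ Icc 1 S.t, (1 / 4 : ℚ) ^ b := by
          apply mul_le_mul_of_nonneg_left _ hNq.le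
          exact sum_le_sum fun b hb => GP2_pow S.m b hm1 (mem_Icc.1 hb).1
      _ = N * ((1 - (1 / 4) ^ S.t) / 3) := by rw [GP2_geom]
  have h6 : (0 : ℚ) ≤ (1 / 4) ^ S.t := by positivity
  nlinarith

end Pool.Agent.PC
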