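import Pool.Agent.helper64.PC.SpecK

/-!
# pc:IN1
-/

set_option autoImplicit false

namespace Pool.Agent.PC

open Finset Polynomial Pool.Agent.PB

/-- coefficients of an interpolating polynomial -/
theorem IN1_interp {K : Type} [Field K] [DecidableEq K] (d : ℕ) (T : Finset K) (hT : T.card ≤ d) (v : K → K) :
    ∃ c : Fin d → K, ∀ x ∈ T, ∑ u : Fin d, x ^ (u : ℕ) * c u = v x := by
  rcases Nat.eq_zero_or_pos d with hd | hd
  · subst hd
    have : T = ∅ := by
      rw [← card_eq_zero]; omega
    subst this
    exact ⟨fun _ => 0, fun x hx => absurd hx (notMem_empty _)⟩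
  · set p := Lagrange.interpolate T id v with hp
    refine ⟨fun u => p.coeff u, fun x hx => ?_⟩
    have h1 : p.degree < T.card := Lagrange.degree_interpolate_lt v (Set.injOn_id _)
    have h2 : p.natDegree < d := by
      by_cases h0 : p = 0
      · rw [h0, natDegree_zero]; exact hd
      · rw [natDegree_lt_iff_degree_lt h0]
        exact lt_of_lt_of_le h1 (by exact_mod_cast hT)
    have h3 : p.eval x = v x := by
      have := Lagrange.eval_interpolate_at_node (s := T) (v := id) v (Set.injOn_id _) hx
      simpa [hp] using this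
    rw [← h3, eval_eq_sum_range' h2, Finset.sum_range]
    exact sum_congr rfl fun u _ => mul_comm _ _

/-- one column -/
theorem IN1_col {K : Type} [Field K] [DecidableEq K] {r : ℕ} (B B' : Finset (Pt K r)) (hB : PFr B) (hB' : PFr B')
    (τ : Pt K r → K) (x : K) :
    ∃ (β : K) (μ : Fin r → K), ∀ z ∈ B ∪ B', z.1 = x → β + ∑ i, μ i * z.2 i = τ z := by
  by_cases h1 : ∃ z ∈ B, z.1 = x
  · obtain ⟨z, hz, hzx⟩ := h1
    by_cases h2 : ∃ z' ∈ B', z'.1 = x
    · obtain ⟨z', hz', hzx'⟩ := h2
      by_cases hne : z = z'
      · refine ⟨τ z, fun _ => 0, fun w hw hwx => ?_⟩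
        have : w = z := by
          rcases mem_union.1 hw with h | h
          · exact hB w h z hz (hwx.trans hzx.symm)
          · rw [hne]
            exact hB' w h z' hz' (hwx.trans hzx'.symm)
        subst this
        simp
      · have hne2 : z.2 ≠ z'.2 := by
          intro h
          exact hne (Prod.ext (hzx.trans hzx'.symm) h)
        obtain ⟨i, hi⟩ := Function.ne_iff.1 hne2
        have hsub : z.2 i - z'.2 i ≠ 0 := sub_ne_zero.2 hi
        set a : K := (τ z - τ z') / (z.2 i - z'.2 i) with ha
        have ha' : a * (z.2 i - z'.2 i) = τ z - τ z' := by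
          rw [ha]; exact div_mul_cancel₀ _ hsub
        have hsum : ∀ y : Fin r → K, ∑ j, (Pi.single i a : Fin r → K) j * y j = a * y i := by
          intro y
          rw [Finset.sum_eq_single i]
          · rw [Pi.single_eq_same]
          · intro j _ hj
            rw [Pi.single_eq_of_ne hj, zero_mul]
          · intro h
            exact absurd (mem_univ _) h
        refine ⟨τ z - a * z.2 i, Pi.single i a, fun w hw hwx => ?_⟩
        rw [hsum]
        rcases mem_union.1 hw with h | h
        · have : w = z := hB w h z hz (hwx.trans hzx.symm)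
          subst this
          ring
        · have : w = z' := hB' w h z' hz' (hwx.trans hzx'.symm)
          subst this
          linear_combination (-1) * ha'
    · refine ⟨τ z, fun _ => 0, fun w hw hwx => ?_⟩
      have : w = z := by
        rcases mem_union.1 hw with h | h
        · exact hB w h z hz (hwx.trans hzx.symm)
        · exact absurd ⟨w, h, hwx⟩ h2
      subst this
      simp
  · by_cases h2 : ∃ z' ∈ B', z'.1 = x
    · obtain ⟨z', hz', hzx'⟩ := h2
      refine ⟨τ z', fun _ => 0, fun w hw hwx => ?_⟩
      have : w = z' := by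
        rcases mem_union.1 hw with h | h
        · exact absurd ⟨w, h, hwx⟩ h1
        · exact hB' w h z' hz' (hwx.trans hzx'.symm)
      subst this
      simp
    · refine ⟨0, fun _ => 0, fun w hw hwx => ?_⟩
      rcases mem_union.1 hw with h | h
      · exact absurd ⟨w, h, hwx⟩ h1
      · exact absurd ⟨w, h, hwx⟩ h2

theorem IN1 : IN1_stmt := by
  intro K _ _ _ d r B B' hB hB' hcard τ
  have hT : ((B ∪ B').image Prod.fst).card ≤ d := card_image_le.trans hcard
  choose β μ hβ using fun x => IN1_col B B' hB hB' τ x
  obtain ⟨c, hc⟩ := IN1_interp d _ hT β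
  choose e he using fun i : Fin r => IN1_interp d _ hT (fun x => μ x i)
  refine ⟨(c, e), fun z hz => ?_⟩
  have hzT : z.1 ∈ (B ∪ B').image Prod.fst := mem_image_of_mem _ hz
  have h1 := hβ z.1 z hz rfl
  rw [← hc z.1 hzT] at h1
  have h2 : ∑ i, μ z.1 i * z.2 i = ∑ i, (∑ u : Fin d, z.1 ^ (u : ℕ) * e i u) * z.2 i :=
    sum_congr rfl fun i _ => by rw [he i z.1 hzT]
  rw [h2] at h1
  rw [← h1]
  unfold ev0
  simp only [mul_add, sum_add_distrib, mul_sum, sum_mul]
  congr 1
  rw [sum_comm]
  exact sum_congr rfl fun i _ => sum_congr rfl fun u _ => by ring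

end Pool.Agent.PC
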