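import Pool.Agent.helper64.PC.SpecE
import Pool.Agent.helper85.PB.TAF

/-!
# pc:FGA
-/

set_option autoImplicit false

namespace Pool.Agent.PC

open Pool.Agent.PB

/-- a function of at most three variables of the clone of `G` is a gate of `ter G` -/
theorem FGA_key (G : Set Gate) (m : ℕ) (g : BF m) (hm : m ≤ 3) (hg : InCl G g) : Size (ter G) g 1 := by
  have hmem : (⟨m, g⟩ : Gate) ∈ ter G := ⟨hm, hg⟩
  have h := Prog.step (G := ter G) (n := m) [] ⟨m, g⟩ (fun i x => x i) Prog.nil hmem (fun i => Or.inr ⟨i, rfl⟩)
  exact ⟨_, h, by simp, Or.inl (by simp)⟩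

theorem FGA (hPRP : PRP_stmt) (hCLP : CLP_stmt) (hSUB : SUB_stmt) (hCMP : CMP_stmt) : FGA_stmt := by
  classical
  intro G hG n hn f hf
  have haff : Affine f := (hPRP G n f hf).1 hG
  obtain ⟨A, hnd, hlen, hrep⟩ := TAF_rep f haff
  -- the unary function
  have hu : InCl G (fun y : Fin 1 → Bool => f fun _ => y 0) :=
    hCLP.2 G n 1 f (fun _ y => y 0) hf (fun _ => hCLP.1 G 1 0)
  have hus : Size (ter G) (fun y : Fin 1 → Bool => f fun _ => y 0) 1 := FGA_key G 1 _ (by omega) hu
  have husub : ∀ (W : BF n) (s : ℕ), Size (ter G) W s → InCl (ter G) (fun x => f fun _ => W x) := by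
    intro W s hW
    have h := hCMP (ter G) 1 n _ (fun _ => W) 1 (fun _ => s) hus (fun _ => hW)
    exact ⟨_, h⟩
  match A, hnd, hlen, hrep with
  | [], _, _, hrep =>
    have h := husub (fun x => x ⟨0, hn⟩) 0 (TAF_var (ter G) _)
    have h2 : f = fun x : Fin n → Bool => f fun _ => x ⟨0, hn⟩ := by
      funext x
      rw [hrep x, hrep (fun _ => x ⟨0, hn⟩), TAF_LS_nil, TAF_LS_nil]
    rw [h2]
    exact h
  | [a], _, _, hrep =>
    have h := husub (fun x => x a) 0 (TAF_var (ter G) _)
    have h2 : f = fun x : Fin n → Bool => f fun _ => x a := by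
      funext x
      rw [hrep x, hrep (fun _ => x a), TAF_LS_cons, TAF_LS_cons, TAF_LS_nil, TAF_LS_nil]
    rw [h2]
    exact h
  | a :: b :: l, hnd, hlen, hrep =>
    simp only [List.nodup_cons, List.mem_cons, not_or] at hnd
    obtain ⟨⟨hab, hal⟩, hbl, hl⟩ := hnd
    simp only [List.length_cons] at hlen
    -- x + y + z
    have hq : InCl G (fun y : Fin 3 → Bool => f fun i => if i = a then y 0 else if i = b then y 1 else y 2) := by
      refine TAF_comp hCLP (F := f) (φ := fun i y => if i = a then y 0 else if i = b then y 1 else y 2) hf ?_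
        (fun _ => rfl)
      intro i
      by_cases h1 : i = a
      · simp only [h1, if_true]
        exact hCLP.1 G 3 0
      · by_cases h2 : i = b
        · simp only [h2, if_true, if_neg (Ne.symm hab)]
          exact hCLP.1 G 3 1
        · simp only [h1, h2, if_false]
          exact hCLP.1 G 3 2
    have hP : InCl G TAF_P := by
      refine TAF_pin hCLP _ hq (f fun _ => false) (decide (l.length % 2 = 1)) ?_
      intro y
      rw [hrep, TAF_LS_cons, TAF_LS_cons,
        TAF_LS_congr l (fun i => if i = a then y 0 else if i = b then y 1 else y 2) (fun _ => y 2) (by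
          intro i hi
          have h1 : i ≠ a := fun h => hal (h ▸ hi)
          have h2 : i ≠ b := fun h => hbl (h ▸ hi)
          simp [h1, h2]), TAF_LS_const]
      simp [Ne.symm hab]
    have hPs : Size (ter G) TAF_P 1 := FGA_key G 3 _ (by omega) hP
    rcases Nat.mod_two_eq_zero_or_one l.length with hpar | hpar
    · -- even number of variables
      obtain ⟨k, hk⟩ : ∃ k, l.length = 2 * k := ⟨l.length / 2, by omega⟩
      have hW := TAF_odd (G := ter G) hCMP 1 hPs k (b :: l) (by simp [hk])
      have hv : InCl G (fun y : Fin 2 → Bool => f fun i => if i = a then y 0 else y 1) := by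
        refine TAF_comp hCLP (F := f) (φ := fun i y => if i = a then y 0 else y 1) hf ?_ (fun _ => rfl)
        intro i
        by_cases h1 : i = a
        · simp only [h1, if_true]
          exact hCLP.1 G 2 0
        · simp only [h1, if_false]
          exact hCLP.1 G 2 1
      have hvs : Size (ter G) (fun y : Fin 2 → Bool => f fun i => if i = a then y 0 else y 1) 1 :=
        FGA_key G 2 _ (by omega) hv
      have h := hCMP (ter G) 2 n _ ![fun x => x a, fun x => TAF_LS (b :: l) x] 1 ![0, k * 1] hvs (by
        intro i
        fin_cases i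
        · exact TAF_var (ter G) a
        · exact hW)
      have h2 : f = fun x : Fin n → Bool => (fun y : Fin 2 → Bool => f fun i => if i = a then y 0 else y 1)
          fun i => (![fun x => x a, fun x => TAF_LS (b :: l) x] : Fin 2 → BF n) i x := by
        funext x
        dsimp only
        rw [hrep x]
        rw [hrep (fun i => if i = a then _ else _), TAF_LS_cons, TAF_LS_cons a,
          TAF_LS_congr (b :: l) (fun i => if i = a then _ else _) (fun _ => TAF_LS (b :: l) x) (by
            intro i hi
            have h1 : i ≠ a := by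
              intro h
              subst h
              simp only [List.mem_cons] at hi
              rcases hi with hi | hi
              · exact hab hi
              · exact hal hi
            simp [h1]), TAF_LS_const]
        have h5 : l.length % 2 = 0 := hpar
        have h6 : (l.length + 1) % 2 = 1 := by omega
        simp [h6]
      rw [h2]
      exact ⟨_, h⟩
    · obtain ⟨k, hk⟩ : ∃ k, l.length = 2 * k + 1 := ⟨l.length / 2, by omega⟩
      have hW := TAF_odd (G := ter G) hCMP 1 hPs (k + 1) (a :: b :: l) (by simp [hk]; ring)
      have h := husub _ _ hW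
      have h2 : f = fun x : Fin n → Bool => f fun _ => TAF_LS (a :: b :: l) x := by
        funext x
        rw [hrep x, hrep (fun _ => TAF_LS (a :: b :: l) x), TAF_LS_const]
        have h6 : (l.length + 1 + 1) % 2 = 1 := by omega
        simp [h6]
      rw [h2]
      exact h

end Pool.Agent.PC
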