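import Pool.Agent.helper64.PC.SpecE
import Pool.Agent.helper89.PB.TCO

/-!
# pc:FGC
-/

set_option autoImplicit false

namespace Pool.Agent.PC

open Pool.Agent.PB

/-- a function of at most three variables of the clone of `G` is a gate of `ter G` -/
theorem FGC_key (G : Set Gate) (m : ℕ) (g : BF m) (hm : m ≤ 3) (hg : InCl G g) : Size (ter G) g 1 := by
  have hmem : (⟨m, g⟩ : Gate) ∈ ter G := ⟨hm, hg⟩
  have h := Prog.step (G := ter G) (n := m) [] ⟨m, g⟩ (fun i x => x i) Prog.nil hmem (fun i => Or.inr ⟨i, rfl⟩)
  exact ⟨_, h, by simp, Or.inl (by simp)⟩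

theorem FGC (hPRP : PRP_stmt) (hCLP : CLP_stmt) (hSUB : SUB_stmt) (hCMP : CMP_stmt) : FGC_stmt := by
  classical
  intro G hG n hn f hf
  have hC : Conj f := (hPRP G n f hf).2.1 hG
  -- constant functions
  have hconst : ∀ b : Bool, (∀ x, f x = b) → InCl (ter G) f := by
    intro b hb
    have h3 : f = fC b n := by
      funext x
      exact hb x
    have h4 : InCl G (fC b 1) := by
      have h5 := hCLP.2 G n 1 f (fun _ x => x 0) hf (fun _ => hCLP.1 G 1 0)
      have h6 : (fun x : Fin 1 → Bool => f fun _ => x 0) = fC b 1 := by
        funext x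
        exact hb _
      rw [h6] at h5
      exact h5
    rw [h3]
    exact ⟨1, TCO_const hCMP (ter G) b 1 (FGC_key G 1 _ (by omega) h4) hn⟩
  by_cases ht : f (fun _ => true) = true
  swap
  · refine hconst false ?_
    intro x
    have h3 := hC x (fun _ => true)
    have h4 : (fun i => x i && true) = x := by
      funext i
      simp
    rw [h4] at h3
    rw [h3]
    simp only [Bool.not_eq_true] at ht
    rw [ht, Bool.and_false]
  have hform := TCO_form f hC ht
  set A : Finset (Fin n) := Finset.univ.filter (fun i => f (fun j => decide (j ≠ i)) = false) with hA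
  rcases Finset.eq_empty_or_nonempty A with hE | hne
  · refine hconst true ?_
    intro x
    rw [hform, hE]
    simp
  by_cases h1c : A.card = 1
  · obtain ⟨a, ha⟩ := Finset.card_eq_one.1 h1c
    have h3 : f = fun x => x a := by
      rw [hform, ha]
      funext x
      simp
    rw [h3]
    exact hCLP.1 (ter G) n a
  · have h2c : 1 < A.card := by
      have := hne.card_pos
      omega
    obtain ⟨a, ha, b, hb, hab⟩ := Finset.one_lt_card.1 h2c
    have hand : InCl G fAnd := by
      have h5 := hCLP.2 G n 2 f (fun i x => if i = a then x 0 else x 1) hf (by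
        intro i
        by_cases hi : i = a
        · simp only [hi, if_true]
          exact hCLP.1 G 2 0
        · simp only [hi, if_false]
          exact hCLP.1 G 2 1)
      have h6 : (fun x : Fin 2 → Bool => f fun i => if i = a then x 0 else x 1) = fAnd := by
        funext x
        rw [hform]
        simp only [fAnd]
        rw [Bool.eq_iff_iff, decide_eq_true_iff, Bool.and_eq_true]
        constructor
        · intro h7
          have h8 := h7 a ha
          have h9 := h7 b hb
          rw [if_pos rfl] at h8
          rw [if_neg (Ne.symm hab)] at h9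
          exact ⟨h8, h9⟩
        · rintro ⟨h7, h8⟩ i _
          by_cases hi : i = a
          · rw [if_pos hi]
            exact h7
          · rw [if_neg hi]
            exact h8
      rw [h6] at h5
      exact h5
    have h7 := TCO_conj hCMP (ter G) 1 (FGC_key G 2 _ (by omega) hand) A hne
    rw [← hform] at h7
    exact ⟨_, h7⟩

end Pool.Agent.PC
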